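import Pool.Agent.H31.CRG.TR
import Pool.Agent.H81.CRZ.S1

/-!
# Critical zeros in every even degree (row S1R): the sums of the weights over the sets which contain
a given set, with a relation
-/

set_option autoImplicit false

namespace Pool.Agent.H33.CRG

open Finset Pool.Agent.H37.CV Pool.Agent.H65.CRZ Pool.Agent.H65.CRG Pool.Agent.H31.CRG

variable {α : Type}

theorem fS_pos {N : α → ℝ} (hN : ∀ P, 2 ≤ N P) (S : Finset α) : 0 < fS N S :=
  prod_pos fun P _ => by linarith [hN P]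

open scoped Classical in
/-- the factor of a prime -/
noncomputable def wR (N : α → ℝ) (R : Finset α) (a b : ℂ) (P : α) : ℂ :=
  if P ∈ R then ((N P : ℝ) : ℂ) ^ (1 + a) else ((N P : ℝ) : ℂ) ^ (-b)

open scoped Classical in
/-- the powers of the norms -/
theorem pow_eq {N : α → ℝ} (hN : ∀ P, 2 ≤ N P) (R S : Finset α) (a b : ℂ) :
    ((nS N S : ℝ) : ℂ) * (((nS N S : ℝ) : ℂ) ^ (-(1 + b)) *
      ((nS N (S ∩ R) : ℝ) : ℂ) ^ (1 + (a + b))) = ∏ P ∈ S, wR N R a b P := by
  have h1 : ((nS N (S ∩ R) : ℝ) : ℂ) ^ (1 + (a + b)) =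
      ∏ P ∈ S, if P ∈ R then ((N P : ℝ) : ℂ) ^ (1 + (a + b)) else 1 := by
    rw [Pool.Agent.H81.CRZ.nS_cpow hN, ← filter_mem_eq_inter, prod_filter]
  rw [h1, Pool.Agent.H81.CRZ.nS_cpow hN]
  unfold nS
  rw [Complex.ofReal_prod, ← prod_mul_distrib, ← prod_mul_distrib]
  refine prod_congr rfl fun P _ => ?_
  have h0 : ((N P : ℝ) : ℂ) ≠ 0 := by
    have := hN P
    exact Complex.ofReal_ne_zero.2 (by linarith)
  unfold wR
  by_cases h : P ∈ R
  · rw [if_pos h, if_pos h, ← Complex.cpow_add _ _ h0]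
    have h2 : ((N P : ℝ) : ℂ) * ((N P : ℝ) : ℂ) ^ (-(1 + b) + (1 + (a + b))) =
        ((N P : ℝ) : ℂ) ^ ((1 : ℂ) + (-(1 + b) + (1 + (a + b)))) := by
      rw [Complex.cpow_add 1 _ h0, Complex.cpow_one]
    rw [h2]
    congr 1
    ring
  · rw [if_neg h, if_neg h, mul_one]
    have h2 : ((N P : ℝ) : ℂ) * ((N P : ℝ) : ℂ) ^ (-(1 + b)) =
        ((N P : ℝ) : ℂ) ^ ((1 : ℂ) + (-(1 + b))) := by
      rw [Complex.cpow_add _ _ h0, Complex.cpow_one]
    rw [h2]
    congr 1
    ring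

open scoped Classical in
/-- the sum over the sets between `D` and `U` -/
theorem sum_between (D U : Finset α) (hD : D ⊆ U) (w : α → ℂ) :
    ∑ S ∈ U.powerset.filter (fun S => D ⊆ S), ∏ P ∈ S, (-w P) =
      (∏ P ∈ D, (-w P)) * ∏ P ∈ U \ D, (1 - w P) := by
  have h1 : ∏ P ∈ U \ D, (1 - w P) = ∑ t ∈ (U \ D).powerset, ∏ P ∈ t, (-w P) := by
    rw [← Finset.prod_one_add]
    exact prod_congr rfl fun P _ => by rw [sub_eq_add_neg]
  rw [h1, mul_sum]
  refine sum_nbij' (fun S => S \ D) (fun t => D ∪ t) ?_ ?_ ?_ ?_ ?_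
  · intro S hS
    rw [mem_filter, mem_powerset] at hS
    exact mem_powerset.2 (sdiff_subset_sdiff hS.1 le_rfl)
  · intro t ht
    rw [mem_filter, mem_powerset]
    exact ⟨union_subset hD ((mem_powerset.1 ht).trans sdiff_subset), subset_union_left⟩
  · intro S hS
    exact union_sdiff_of_subset (mem_filter.1 hS).2
  · intro t ht
    have h2 : Disjoint t D := disjoint_of_subset_left (mem_powerset.1 ht) sdiff_disjoint
    change (D ∪ t) \ D = t
    rw [union_sdiff_left, sdiff_eq_self_of_disjoint h2]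
  · intro S hS
    rw [← prod_union disjoint_sdiff]
    refine prod_congr ?_ fun _ _ => rfl
    exact (union_sdiff_of_subset (mem_filter.1 hS).2).symm

open scoped Classical in
/-- the sum over the pairs, reordered by the union -/
theorem sum_pairs {N : α → ℝ} (hN : ∀ P, 2 ≤ N P) (A D : Finset α) (M : ℝ) (w : α → ℂ) :
    ∑ S ∈ (DS N A M).filter (fun S => D ⊆ S),
      ∑ T ∈ (DS N A M).filter (fun T => Disjoint S T ∧ nS N S * nS N T ≤ M),
        (∏ P ∈ S, (-w P)) * (((fS N S)⁻¹ * (fS N T)⁻¹ : ℝ) : ℂ) =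
    ∑ U ∈ (DS N A M).filter (fun U => D ⊆ U), ∑ S ∈ U.powerset.filter (fun S => D ⊆ S),
        (∏ P ∈ S, (-w P)) * (((fS N U)⁻¹ : ℝ) : ℂ) := by
  rw [sum_sigma', sum_sigma']
  refine sum_nbij' (fun x => ⟨x.1 ∪ x.2, x.1⟩) (fun x => ⟨x.2, x.1 \ x.2⟩) ?_ ?_ ?_ ?_ ?_
  · rintro ⟨S, T⟩ h
    rw [mem_sigma, mem_filter, mem_filter, Pool.Agent.H27.CV.mem_DS,
      Pool.Agent.H27.CV.mem_DS] at h
    obtain ⟨⟨⟨h1, h2⟩, h3⟩, ⟨h4, h5⟩, h6, h7⟩ := h
    rw [mem_sigma, mem_filter, mem_filter, Pool.Agent.H27.CV.mem_DS, mem_powerset]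
    have h8 : nS N (S ∪ T) = nS N S * nS N T := prod_union h6
    refine ⟨⟨⟨union_subset h1 h4, ?_⟩, h3.trans subset_union_left⟩, subset_union_left, h3⟩
    change nS N (S ∪ T) ≤ M
    rw [h8]
    exact h7
  · rintro ⟨U, S⟩ h
    rw [mem_sigma, mem_filter, mem_filter, Pool.Agent.H27.CV.mem_DS, mem_powerset] at h
    obtain ⟨⟨⟨h1, h2⟩, h3⟩, h4, h5⟩ := h
    have h6 : S ∪ U \ S = U := union_sdiff_of_subset h4
    have h7 : nS N U = nS N S * nS N (U \ S) := by
      conv_lhs => rw [← h6]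
      exact prod_union disjoint_sdiff
    have h8 : ∀ X : Finset α, 1 ≤ nS N X := fun X => by
      unfold nS
      calc (1 : ℝ) = ∏ _P ∈ X, (1 : ℝ) := prod_const_one.symm
        _ ≤ _ := prod_le_prod (fun _ _ => zero_le_one) fun P _ => by linarith [hN P]
    have h9 : nS N S ≤ nS N U := by
      rw [h7]
      exact le_mul_of_one_le_right (by linarith [h8 S]) (h8 _)
    have h10 : nS N (U \ S) ≤ nS N U := by
      rw [h7]
      exact le_mul_of_one_le_left (by linarith [h8 (U \ S)]) (h8 _)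
    rw [mem_sigma, mem_filter, mem_filter, Pool.Agent.H27.CV.mem_DS,
      Pool.Agent.H27.CV.mem_DS]
    exact ⟨⟨⟨h4.trans h1, h9.trans h2⟩, h5⟩, ⟨sdiff_subset.trans h1, h10.trans h2⟩,
      disjoint_sdiff, by rw [← h7]; exact h2⟩
  · rintro ⟨S, T⟩ h
    rw [mem_sigma, mem_filter, mem_filter] at h
    have h6 : Disjoint S T := h.2.2.1
    change (⟨S, (S ∪ T) \ S⟩ : (_ : Finset α) × Finset α) = ⟨S, T⟩
    rw [union_sdiff_left, sdiff_eq_self_of_disjoint h6.symm]
  · rintro ⟨U, S⟩ h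
    rw [mem_sigma, mem_filter, mem_filter, mem_powerset] at h
    change (⟨S ∪ U \ S, S⟩ : (_ : Finset α) × Finset α) = ⟨U, S⟩
    rw [union_sdiff_of_subset h.2.1]
  · rintro ⟨S, T⟩ h
    rw [mem_sigma, mem_filter, mem_filter] at h
    have h6 : Disjoint S T := h.2.2.1
    have h7 : fS N (S ∪ T) = fS N S * fS N T := prod_union h6
    change _ = (∏ P ∈ S, (-w P)) * (((fS N (S ∪ T))⁻¹ : ℝ) : ℂ)
    rw [h7, mul_inv]

open scoped Classical in
/-- the sum over the sets which are disjoint from `D` -/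
theorem sum_rel {N : α → ℝ} (hN : ∀ P, 2 ≤ N P) {A D R : Finset α} {M : ℝ} (a b : ℂ)
    (hD : D ∈ DS N A M) (hR : R ⊆ A) (hDR : Disjoint D R) :
    ∑ U ∈ (DS N A M).filter (fun U => D ⊆ U), (((fS N U)⁻¹ : ℝ) : ℂ) *
      ∏ P ∈ U \ D, (1 - wR N R a b P) = (((fS N D)⁻¹ : ℝ) : ℂ) * UR N A R D M a b := by
  have hD0 : (0 : ℝ) < nS N D := Pool.Agent.H27.CV.nS_pos hN D
  obtain ⟨hDA, hDM⟩ := Pool.Agent.H27.CV.mem_DS.1 hD
  have key : UR N A R D M a b = ∑ U ∈ (DS N A M).filter (fun U => D ⊆ U),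
      (((fS N (U \ D))⁻¹ : ℝ) : ℂ) * ∏ P ∈ U \ D, (1 - wR N R a b P) := by
    unfold UR Eb
    have h1 : ∀ n ∈ R.powerset, (-1) ^ n.card * cR N a n *
        ∑ S ∈ (DS N A (M / (nS N D * nS N n))).filter (fun S => Disjoint S (D ∪ R)), bP N b S =
        ∑ S ∈ (DS N A (M / (nS N D * nS N n))).filter (fun S => Disjoint S (D ∪ R)),
          (-1) ^ n.card * cR N a n * bP N b S := fun n _ => mul_sum _ _ _
    rw [sum_congr rfl h1, sum_sigma']
    refine sum_nbij' (fun x => D ∪ (x.1 ∪ x.2)) (fun U => ⟨(U \ D) ∩ R, (U \ D) \ R⟩) ?_ ?_ ?_ ?_ ?_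
    · rintro ⟨n, E⟩ h
      rw [mem_sigma, mem_powerset, mem_filter, Pool.Agent.H27.CV.mem_DS] at h
      obtain ⟨h1, ⟨h2, h3⟩, h4⟩ := h
      change E ⊆ A at h2
      change n ⊆ R at h1
      change Disjoint E (D ∪ R) at h4
      change nS N E ≤ M / (nS N D * nS N n) at h3
      have hn0 : (0 : ℝ) < nS N n := Pool.Agent.H27.CV.nS_pos hN n
      rw [le_div_iff₀ (mul_pos hD0 hn0)] at h3
      have h5 : Disjoint n E := (disjoint_of_subset_right (h1.trans subset_union_right) h4).symm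
      have h6 : Disjoint D (n ∪ E) := disjoint_union_right.2
        ⟨disjoint_of_subset_right h1 hDR, (disjoint_of_subset_right subset_union_left h4).symm⟩
      have h7 : nS N (D ∪ (n ∪ E)) = nS N D * (nS N n * nS N E) := by
        have h8 : nS N (n ∪ E) = nS N n * nS N E := prod_union h5
        rw [← h8]
        exact prod_union h6
      rw [mem_filter, Pool.Agent.H27.CV.mem_DS]
      change (D ∪ (n ∪ E) ⊆ A ∧ nS N (D ∪ (n ∪ E)) ≤ M) ∧ D ⊆ D ∪ (n ∪ E)
      refine ⟨⟨union_subset hDA (union_subset (h1.trans hR) h2), ?_⟩, subset_union_left⟩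
      rw [h7]
      linarith
    · intro U h
      rw [mem_filter, Pool.Agent.H27.CV.mem_DS] at h
      obtain ⟨⟨h1, h2⟩, h3⟩ := h
      rw [mem_sigma, mem_powerset, mem_filter, Pool.Agent.H27.CV.mem_DS]
      change U \ D ∩ R ⊆ R ∧ ((U \ D) \ R ⊆ A ∧ nS N ((U \ D) \ R) ≤
        M / (nS N D * nS N (U \ D ∩ R))) ∧ Disjoint ((U \ D) \ R) (D ∪ R)
      refine ⟨inter_subset_right, ⟨sdiff_subset.trans (sdiff_subset.trans h1), ?_⟩, ?_⟩
      · rw [le_div_iff₀ (mul_pos hD0 (Pool.Agent.H27.CV.nS_pos hN _))]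
        have h4 : nS N U = nS N D * nS N (U \ D) := by
          conv_lhs => rw [← union_sdiff_of_subset h3]
          exact prod_union disjoint_sdiff
        have h5 : nS N (U \ D) = nS N (U \ D ∩ R) * nS N ((U \ D) \ R) := by
          have h6 : U \ D ∩ R ∪ (U \ D) \ R = U \ D := by
            ext x
            simp only [mem_union, mem_inter, mem_sdiff]
            tauto
          conv_lhs => rw [← h6]
          refine prod_union (disjoint_left.2 fun x hx hx' => ?_)
          exact (mem_sdiff.1 hx').2 (mem_inter.1 hx).2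
        rw [h4, h5] at h2
        linarith
      · refine disjoint_left.2 fun x hx hx' => ?_
        rcases mem_union.1 hx' with h4 | h4
        · exact (mem_sdiff.1 (mem_sdiff.1 hx).1).2 h4
        · exact (mem_sdiff.1 hx).2 h4
    · rintro ⟨n, E⟩ h
      rw [mem_sigma, mem_powerset, mem_filter] at h
      obtain ⟨h1, -, h4⟩ := h
      change n ⊆ R at h1
      change Disjoint E (D ∪ R) at h4
      have h6 : Disjoint (n ∪ E) D := disjoint_union_left.2
        ⟨disjoint_of_subset_left h1 hDR.symm, disjoint_of_subset_right subset_union_left h4⟩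
      have h7 : Disjoint E R := disjoint_of_subset_right subset_union_right h4
      change (⟨(D ∪ (n ∪ E)) \ D ∩ R, ((D ∪ (n ∪ E)) \ D) \ R⟩ : (_ : Finset α) × Finset α) = ⟨n, E⟩
      rw [union_sdiff_left, sdiff_eq_self_of_disjoint h6]
      have h8 : (n ∪ E) ∩ R = n := by
        rw [union_inter_distrib_right, inter_eq_left.2 h1, disjoint_iff_inter_eq_empty.1 h7,
          union_empty]
      have h9 : (n ∪ E) \ R = E := by
        rw [union_sdiff_distrib, sdiff_eq_empty_iff_subset.2 h1, sdiff_eq_self_of_disjoint h7,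
          empty_union]
      rw [h8, h9]
    · intro U h
      rw [mem_filter] at h
      change D ∪ ((U \ D) ∩ R ∪ (U \ D) \ R) = U
      ext x
      have h3 := @h.2 x
      simp only [mem_union, mem_inter, mem_sdiff]
      tauto
    · rintro ⟨n, E⟩ h
      rw [mem_sigma, mem_powerset, mem_filter] at h
      obtain ⟨h1, -, h4⟩ := h
      change n ⊆ R at h1
      change Disjoint E (D ∪ R) at h4
      have h6 : Disjoint (n ∪ E) D := disjoint_union_left.2
        ⟨disjoint_of_subset_left h1 hDR.symm, disjoint_of_subset_right subset_union_left h4⟩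
      have h7 : Disjoint E R := disjoint_of_subset_right subset_union_right h4
      have h5 : Disjoint n E := disjoint_of_subset_left h1 h7.symm
      change (-1) ^ n.card * cR N a n * bP N b E = (((fS N ((D ∪ (n ∪ E)) \ D))⁻¹ : ℝ) : ℂ) *
        ∏ P ∈ (D ∪ (n ∪ E)) \ D, (1 - wR N R a b P)
      rw [union_sdiff_left, sdiff_eq_self_of_disjoint h6, prod_union h5]
      have h8 : fS N (n ∪ E) = fS N n * fS N E := prod_union h5
      rw [h8]
      have h9 : bP N b E = (((fS N E)⁻¹ : ℝ) : ℂ) * ∏ P ∈ E, (1 - wR N R a b P) := by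
        unfold bP fS
        rw [Complex.ofReal_inv, Complex.ofReal_prod, ← prod_inv_distrib, ← prod_mul_distrib]
        refine prod_congr rfl fun P hP => ?_
        unfold wR
        rw [if_neg (disjoint_left.1 h7 hP), div_eq_inv_mul]
      have h10 : (-1) ^ n.card * cR N a n =
          (((fS N n)⁻¹ : ℝ) : ℂ) * ∏ P ∈ n, (1 - wR N R a b P) := by
        unfold cR fS
        rw [Complex.ofReal_inv, Complex.ofReal_prod, ← prod_inv_distrib, ← prod_mul_distrib,
          ← prod_const, ← prod_mul_distrib]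
        refine prod_congr rfl fun P hP => ?_
        unfold wR
        rw [if_pos (h1 hP)]
        have h0 : ((N P : ℝ) : ℂ) ≠ 0 := by
          have := hN P
          exact Complex.ofReal_ne_zero.2 (by linarith)
        have h00 : ((N P : ℝ) : ℂ) - 1 ≠ 0 := by
          have := hN P
          have h : ((N P - 1 : ℝ) : ℂ) ≠ 0 := Complex.ofReal_ne_zero.2 (by linarith)
          push_cast at h
          exact h
        rw [Complex.cpow_add _ _ h0, Complex.cpow_one]
        push_cast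
        field_simp
        ring
      rw [h9, h10, Complex.ofReal_inv, Complex.ofReal_inv, Complex.ofReal_inv,
        Complex.ofReal_mul, mul_inv]
      ring
  rw [key, mul_sum]
  refine sum_congr rfl fun U hU => ?_
  have h3 := (mem_filter.1 hU).2
  have h4 : fS N U = fS N D * fS N (U \ D) := by
    conv_lhs => rw [← union_sdiff_of_subset h3]
    exact prod_union disjoint_sdiff
  rw [h4, mul_inv, Complex.ofReal_mul, mul_assoc]

open scoped Classical in
theorem pf_S1R : Pool.Agent.H31.CRG.T_S1R := by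
  intro α N A D R M a b hN hM hD hRA hDR
  have e1 : ∀ S ∈ (DS N A M).filter (fun S => D ⊆ S), (xS N A M S : ℂ) *
        (((nS N S : ℝ) : ℂ) ^ (-(1 + b)) * ((nS N (S ∩ R) : ℝ) : ℂ) ^ (1 + (a + b))) =
      ((GS N A M : ℝ) : ℂ)⁻¹ *
        ∑ T ∈ (DS N A M).filter (fun T => Disjoint S T ∧ nS N S * nS N T ≤ M),
          (∏ P ∈ S, (-wR N R a b P)) * (((fS N S)⁻¹ * (fS N T)⁻¹ : ℝ) : ℂ) := by
    intro S _
    have h1 : ∏ P ∈ S, (-wR N R a b P) = (-1) ^ S.card * ∏ P ∈ S, wR N R a b P := by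
      rw [prod_neg]
    rw [h1, ← pow_eq hN R S a b]
    unfold xS
    push_cast
    rw [← mul_sum, ← mul_sum]
    rw [div_eq_mul_inv, div_eq_mul_inv]
    ring
  rw [sum_congr rfl e1, ← mul_sum, sum_pairs hN A D M (wR N R a b)]
  have e2 : ∀ U ∈ (DS N A M).filter (fun U => D ⊆ U),
      ∑ S ∈ U.powerset.filter (fun S => D ⊆ S),
        (∏ P ∈ S, (-wR N R a b P)) * (((fS N U)⁻¹ : ℝ) : ℂ) =
      (∏ P ∈ D, (-wR N R a b P)) * ((((fS N U)⁻¹ : ℝ) : ℂ) *
        ∏ P ∈ U \ D, (1 - wR N R a b P)) := by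
    intro U hU
    rw [← sum_mul, sum_between D U (mem_filter.1 hU).2]
    ring
  rw [sum_congr rfl e2, ← mul_sum, sum_rel hN a b hD hRA hDR]
  have e3 : ∏ P ∈ D, (-wR N R a b P) = (-1) ^ D.card * ((nS N D : ℝ) : ℂ) ^ (-b) := by
    rw [prod_neg, Pool.Agent.H81.CRZ.nS_cpow hN]
    congr 1
    refine prod_congr rfl fun P hP => ?_
    unfold wR
    rw [if_neg (disjoint_left.1 hDR hP)]
  rw [e3]
  push_cast
  rw [div_eq_mul_inv, mul_inv]
  ring

end Pool.Agent.H33.CRG
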